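import Pool.Agent.H49.SW.Stm

set_option autoImplicit false

/-!
# Codes with short words, row R7: the quadratic case
-/

namespace H74.SW

open Finset MvPolynomial
open Pool.Agent.H72.OF (os)
open Pool.Agent.H49.SW (evt SLin SQuad)

variable {α : Type}

theorem evt_nonneg (p : MvPolynomial α ℤ) (hp : ∀ m, 0 ≤ coeff m p) (t : α → ℕ) :
    0 ≤ evt t p := by
  unfold evt
  rw [eval_eq]
  exact Finset.sum_nonneg fun d _ => mul_nonneg (hp d) (Finset.prod_nonneg fun x _ => by positivity)

theorem evt_pos (p : MvPolynomial α ℤ) (hp : ∀ m, 0 ≤ coeff m p) (h0 : p ≠ 0) (t : α → ℕ)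
    (ht : ∀ x, 1 ≤ t x) : 0 < evt t p := by
  unfold evt
  rw [eval_eq]
  have hne : p.support.Nonempty := by
    rw [Finset.nonempty_iff_ne_empty]
    intro h
    exact h0 (support_eq_empty.1 h)
  refine Finset.sum_pos (fun d hd => mul_pos
    (lt_of_le_of_ne (hp d) (Ne.symm (mem_support_iff.1 hd)))
    (Finset.prod_pos fun x _ => ?_)) hne
  have h1 : (0 : ℤ) < (t x : ℤ) := by
    have := ht x
    exact_mod_cast this
  exact pow_pos h1 _

theorem evt_smul (p : MvPolynomial α ℤ) (n : ℕ) (hp : p.IsHomogeneous n) (t : α → ℕ) (z : ℕ) :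
    evt (fun x => z * t x) p = (z : ℤ) ^ n * evt t p := by
  unfold evt
  rw [eval_eq, eval_eq, Finset.mul_sum]
  refine Finset.sum_congr rfl fun d hd => ?_
  have h1 : d.degree = n := by
    by_contra h
    exact (mem_support_iff.1 hd) (hp.coeff_eq_zero h)
  have h2 : ∏ x ∈ d.support, (((z * t x : ℕ) : ℤ)) ^ d x
      = (z : ℤ) ^ n * ∏ x ∈ d.support, ((t x : ℤ)) ^ d x := by
    have h3 : ∀ x ∈ d.support, (((z * t x : ℕ) : ℤ)) ^ d x = (z : ℤ) ^ d x * ((t x : ℤ)) ^ d x := by
      intro x _
      push_cast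
      rw [mul_pow]
    rw [Finset.prod_congr rfl h3, Finset.prod_mul_distrib, Finset.prod_pow_eq_pow_sum]
    rw [← h1]
    rfl
  rw [h2]
  ring

theorem dec (p : MvPolynomial α ℤ) (h0 : constantCoeff p = 0) (h : p.totalDegree ≤ 2) :
    p = homogeneousComponent 1 p + homogeneousComponent 2 p := by
  ext m
  rw [coeff_add, coeff_homogeneousComponent, coeff_homogeneousComponent]
  by_cases h1 : m.degree = 1
  · simp [h1]
  · by_cases h2 : m.degree = 2
    · simp [h2]
    · rw [if_neg h1, if_neg h2, add_zero]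
      by_cases h3 : m.degree = 0
      · have h4 : m = 0 := (Finsupp.degree_eq_zero_iff m).1 h3
        subst h4
        simpa [constantCoeff_eq] using h0
      · apply coeff_eq_zero_of_totalDegree_lt
        have h5 : 2 < m.degree := by omega
        exact lt_of_le_of_lt h h5

theorem dec1 (p : MvPolynomial α ℤ) (h0 : constantCoeff p = 0) (h : p.totalDegree ≤ 1) :
    p.IsHomogeneous 1 := by
  have h1 : homogeneousComponent 2 p = 0 := homogeneousComponent_eq_zero 2 p (by omega)
  have h2 := dec p h0 (by omega)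
  rw [h1, add_zero] at h2
  rw [h2]
  exact homogeneousComponent_isHomogeneous 1 p

theorem s_hom [Fintype α] : (1 - os α : MvPolynomial α ℤ).IsHomogeneous 1 := by
  have h : (1 - os α : MvPolynomial α ℤ) = ∑ x : α, X x := by
    unfold os
    ring
  rw [h]
  exact IsHomogeneous.sum _ _ _ fun x _ => isHomogeneous_X _ x

theorem evt_s [Fintype α] (t : α → ℕ) : evt t (1 - os α) = ∑ x : α, (t x : ℤ) := by
  have h : (1 - os α : MvPolynomial α ℤ) = ∑ x : α, X x := by
    unfold os
    ring
  rw [h]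
  unfold evt
  simp

theorem coeff_mul_nonneg [DecidableEq α] (p q : MvPolynomial α ℤ) (hp : ∀ m, 0 ≤ coeff m p)
    (hq : ∀ m, 0 ≤ coeff m q) : ∀ m, 0 ≤ coeff m (p * q) := by
  intro m
  rw [coeff_mul]
  exact Finset.sum_nonneg fun x _ => mul_nonneg (hp _) (hq _)

theorem quad (h6 : SLin) : SQuad := by
  intro α _ _ a q hc ha hda ha0 hap hqp hq0 hdq hN
  have hA : a.IsHomogeneous 1 := dec1 a ha0 hda
  obtain ⟨la, hla⟩ : ∃ la, la = homogeneousComponent 1 q := ⟨_, rfl⟩
  obtain ⟨q2, hq2⟩ : ∃ q2, q2 = homogeneousComponent 2 q := ⟨_, rfl⟩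
  have hL : la.IsHomogeneous 1 := by rw [hla]; exact homogeneousComponent_isHomogeneous 1 q
  have hQ : q2.IsHomogeneous 2 := by rw [hq2]; exact homogeneousComponent_isHomogeneous 2 q
  have hq : q = la + q2 := by rw [hla, hq2]; exact dec q hq0 hdq
  have hS : (1 - os α : MvPolynomial α ℤ).IsHomogeneous 1 := s_hom
  have hP1 : (a + la).IsHomogeneous 1 := hA.add hL
  have hP2 : (q2 - a * la).IsHomogeneous 2 := hQ.sub (hA.mul hL)
  have hP3 : ((1 - os α) * (a * la) - a * q2).IsHomogeneous 3 :=
    (hS.mul (hA.mul hL)).sub (hA.mul hQ)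
  have hP4 : ((1 - os α) * (a * q2)).IsHomogeneous 4 := hS.mul (hA.mul hQ)
  have hsum : a + q - os α * (a * q) = (a + la) + (q2 - a * la)
      + ((1 - os α) * (a * la) - a * q2) + (1 - os α) * (a * q2) := by
    rw [hq]
    ring
  rw [hsum] at hN
  have h2 : ∀ m, 0 ≤ coeff m (q2 - a * la) := by
    intro m
    by_cases hm : m.degree = 2
    · have h := hN m
      rw [coeff_add, coeff_add, coeff_add, hP1.coeff_eq_zero (by omega),
        hP3.coeff_eq_zero (by omega), hP4.coeff_eq_zero (by omega)] at h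
      linarith
    · rw [hP2.coeff_eq_zero hm]
  have h3 : ∀ m, 0 ≤ coeff m ((1 - os α) * (a * la) - a * q2) := by
    intro m
    by_cases hm : m.degree = 3
    · have h := hN m
      rw [coeff_add, coeff_add, coeff_add, hP1.coeff_eq_zero (by omega),
        hP2.coeff_eq_zero (by omega), hP4.coeff_eq_zero (by omega)] at h
      linarith
    · rw [hP3.coeff_eq_zero hm]
  have hlat : ∀ t : α → ℕ, (∀ x, 1 ≤ t x) → 0 ≤ evt t la := by
    intro t ht
    have e1 : 0 < evt t a := evt_pos a hap ha t ht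
    have e2 : 0 ≤ evt t q2 := by
      by_contra hneg
      push Not at hneg
      obtain ⟨z, hz⟩ : ∃ z : ℕ, (z : ℤ) = max (evt t la + 1) 1 :=
        ⟨(max (evt t la + 1) 1).toNat, Int.toNat_of_nonneg (le_trans zero_le_one (le_max_right _ _))⟩
      have hz1 : (1 : ℤ) ≤ z := by rw [hz]; exact le_max_right _ _
      have hz2 : evt t la + 1 ≤ (z : ℤ) := by rw [hz]; exact le_max_left _ _
      have h := hqp (fun x => z * t x) (fun x => by
        have h1 : 1 ≤ z := by exact_mod_cast hz1
        exact Nat.mul_le_mul h1 (ht x))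
      have h' : evt (fun x => z * t x) q = (z : ℤ) ^ 1 * evt t la + (z : ℤ) ^ 2 * evt t q2 := by
        rw [← evt_smul la 1 hL t z, ← evt_smul q2 2 hQ t z, hq]
        unfold evt
        rw [map_add]
      rw [h'] at h
      have h4 : evt t q2 ≤ -1 := by omega
      nlinarith [mul_nonneg (by linarith : (0 : ℤ) ≤ z) (by linarith : (0 : ℤ) ≤ z - evt t la - 1),
        mul_nonneg (mul_nonneg (by linarith : (0 : ℤ) ≤ z) (by linarith : (0 : ℤ) ≤ z))
          (by linarith : (0 : ℤ) ≤ -1 - evt t q2)]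
    have e3 := evt_nonneg _ h3 t
    have e4 : evt t ((1 - os α) * (a * la) - a * q2)
        = (∑ x : α, (t x : ℤ)) * (evt t a * evt t la) - evt t a * evt t q2 := by
      rw [← evt_s t]
      unfold evt
      rw [map_sub, map_mul, map_mul, map_mul]
    rw [e4] at e3
    have e5 : 0 < ∑ x : α, (t x : ℤ) := by
      have : Nonempty α := by
        rw [← Fintype.card_pos_iff]
        omega
      refine Finset.sum_pos (fun x _ => ?_) Finset.univ_nonempty
      have := ht x
      exact_mod_cast this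
    by_contra hneg
    push Not at hneg
    have h5 : 0 < (∑ x : α, (t x : ℤ)) * evt t a := mul_pos e5 e1
    have h6 : (∑ x : α, (t x : ℤ)) * evt t a * evt t la < 0 := mul_neg_of_pos_of_neg h5 hneg
    have h7 : 0 ≤ evt t a * evt t q2 := mul_nonneg e1.le e2
    nlinarith
  have hla0 : constantCoeff la = 0 := by
    rw [constantCoeff_eq]
    exact hL.coeff_eq_zero (by simp)
  have hlac : ∀ m, 0 ≤ coeff m la := h6 α la hlat (le_of_eq hla0.symm) hL.totalDegree_le
  intro m
  have h8 := h2 m
  have h9 := coeff_mul_nonneg a la hap hlac m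
  rw [coeff_sub] at h8
  rw [hq, coeff_add]
  have := hlac m
  linarith

end H74.SW
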